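import Pool.Agent.H29.LA.Targets
import Mathlib

/-!
# Row GRD: a permutation exchanging two blocks is odd (MP_6b5a9a_nt)
-/

set_option autoImplicit false

namespace Pool.Agent.H26.LA

open Pool.Agent.H29.LA Equiv.Perm

/-- the multiples of `b` form a group of translations without odd elements -/
theorem sign_addRight (p : ℕ) [NeZero p] (hp : Odd p) (b : ZMod p) :
    sign (Equiv.addRight b : Equiv.Perm (ZMod p)) = 1 := by
  have h1 : (Equiv.addRight b : Equiv.Perm (ZMod p)) ^ p = 1 := by
    have h : ∀ (m : ℕ) (a : ZMod p), ((Equiv.addRight b : Equiv.Perm (ZMod p)) ^ m) a = a + m * b := by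
      intro m
      induction m with
      | zero => intro a; simp
      | succ m ih =>
        intro a
        rw [pow_succ', Equiv.Perm.mul_apply, ih]
        simp only [Equiv.coe_addRight]
        push_cast; ring
    ext a
    rw [h]
    simp
  have h2 : sign (Equiv.addRight b : Equiv.Perm (ZMod p)) ^ p = 1 := by
    rw [← map_pow, h1, map_one]
  rcases Int.units_eq_one_or (sign (Equiv.addRight b : Equiv.Perm (ZMod p))) with h | h
  · exact h
  · rw [h, hp.neg_one_pow] at h2
    exact absurd h2 (by decide)

theorem pf_GRD : T_GRD := by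
  intro X _ _ p n g x hp hp2 hcard hord hfix hc hx
  obtain ⟨c, hc⟩ := hc
  haveI : Fact p.Prime := ⟨hp⟩
  haveI : NeZero p := ⟨hp.ne_zero⟩
  have hodd : Odd p := hp.odd_of_ne_two hp2
  have hnp : n ^ p = 1 := by rw [← hord]; exact pow_orderOf_eq_one n
  -- powers with exponents modulo `p`
  set N : ZMod p → Equiv.Perm X := fun a => n ^ a.val with hN
  have hNnat : ∀ k : ℕ, N (k : ZMod p) = n ^ k := by
    intro k
    show n ^ (k : ZMod p).val = n ^ k
    rw [ZMod.val_natCast]
    conv_rhs => rw [← Nat.mod_add_div k p, pow_add, pow_mul, hnp, one_pow, mul_one]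
  have hNadd : ∀ a b, N (a + b) = N a * N b := by
    intro a b
    show N (a + b) = n ^ a.val * n ^ b.val
    rw [← pow_add, ← hNnat]
    congr 1
    push_cast
    rw [ZMod.natCast_zmod_val, ZMod.natCast_zmod_val]
  have hN0 : N 0 = 1 := by
    have := hNnat 0
    simpa using this
  have hN1 : N 1 = n := by
    have := hNnat 1
    simpa using this
  have hNmul : ∀ (k : ℕ) (a : ZMod p), N (k * a) = N a ^ k := by
    intro k a
    induction k with
    | zero => simp [hN0]
    | succ k ih =>
      rw [pow_succ, ← ih, ← hNadd]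
      congr 1
      push_cast; ring
  -- freeness
  have hfree : ∀ (a : ZMod p) (y : X), N a y = y → a = 0 := by
    intro a y h
    by_contra ha
    have h1 : ∀ k : ℕ, (N a ^ k) y = y := by
      intro k
      induction k with
      | zero => rfl
      | succ k ih => rw [pow_succ, Equiv.Perm.mul_apply, h, ih]
    have h2 := h1 (a⁻¹ : ZMod p).val
    rw [← hNmul, ZMod.natCast_zmod_val, inv_mul_cancel₀ ha, hN1] at h2
    exact hfix y h2
  have hgN : ∀ (k : ℕ) (y : X), g ((n ^ k) y) = (n ^ (c * k)) (g y) := by
    intro k y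
    have h1 : g * n ^ k = n ^ (c * k) * g := by
      rw [pow_mul, ← hc, conj_pow]
      group
    have := congrArg (fun f : Equiv.Perm X => f y) h1
    exact this
  have hgNz : ∀ (a : ZMod p) (y : X), g (N a y) = N (c * a) (g y) := by
    intro a y
    show g ((n ^ a.val) y) = _
    rw [hgN, ← hNnat]
    push_cast
    rw [ZMod.natCast_zmod_val]
  have hxz : ∀ a : ZMod p, N a x ≠ g x := fun a => hx a.val
  have hinv : ∀ (a : ZMod p) (y : X), N (-a) (N a y) = y := by
    intro a y
    rw [← Equiv.Perm.mul_apply, ← hNadd, neg_add_cancel, hN0]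
    rfl
  -- coordinates
  let f : ZMod p × Bool → X := fun q => if q.2 then g (N q.1 x) else N q.1 x
  have hf1 : ∀ a, f (a, true) = g (N a x) := fun a => if_pos rfl
  have hf2 : ∀ a, f (a, false) = N a x := fun a => if_neg (by simp)
  have hsame : ∀ a b : ZMod p, N a x = N b x → a = b := by
    intro a b h
    have h1 : N (a - b) x = x := by
      have h2 := congrArg (N (-b)) h
      rw [hinv, ← Equiv.Perm.mul_apply, ← hNadd] at h2
      rw [sub_eq_neg_add]
      exact h2
    exact sub_eq_zero.1 (hfree _ _ h1)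
  have hdiff : ∀ a b : ZMod p, N a x ≠ g (N b x) := by
    intro a b h
    rw [hgNz] at h
    have h2 := congrArg (N (-(c * b))) h
    rw [hinv, ← Equiv.Perm.mul_apply, ← hNadd] at h2
    exact hxz _ h2
  have hinj : Function.Injective f := by
    rintro ⟨a, s⟩ ⟨b, t⟩ h
    cases s <;> cases t
    · rw [hf2, hf2] at h
      rw [hsame a b h]
    · rw [hf2, hf1] at h
      exact absurd h (hdiff a b)
    · rw [hf1, hf2] at h
      exact absurd h.symm (hdiff b a)
    · rw [hf1, hf1] at h
      rw [hsame a b (g.injective h)]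
  have hbij : Function.Bijective f := by
    rw [Fintype.bijective_iff_injective_and_card]
    refine ⟨hinj, ?_⟩
    rw [Fintype.card_prod, ZMod.card, Fintype.card_bool, hcard, mul_comm]
  let e : ZMod p × Bool ≃ X := Equiv.ofBijective f hbij
  -- the square of `g`
  obtain ⟨b, hb⟩ : ∃ b, g (g x) = N b x := by
    obtain ⟨⟨b, t⟩, hbt⟩ := hbij.2 (g (g x))
    cases t
    · exact ⟨b, by rw [← hbt, hf2]⟩
    · rw [hf1] at hbt
      exact absurd (g.injective hbt) (hxz b)
  have hg1 : ∀ a, g (f (a, false)) = f (a, true) := by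
    intro a; rw [hf2, hf1]
  have hg2 : ∀ a, g (f (a, true)) = f (c * (c * a) + b, false) := by
    intro a
    rw [hf1, hf2, hgNz, hgNz, hb, ← Equiv.Perm.mul_apply, ← hNadd]
  -- `c` is a unit
  have hcu : (c : ZMod p) ≠ 0 := by
    intro h0
    have h1 : n ^ c = 1 := by rw [← hNnat, h0, hN0]
    rw [h1] at hc
    have h2 : n = 1 := by
      have h3 := congrArg (fun u => g⁻¹ * u * g) hc
      simp only [mul_one, inv_mul_cancel] at h3
      rw [← h3]; group
    exact hfix x (by rw [h2]; rfl)
  let u : (ZMod p)ˣ := Units.mk0 (c : ZMod p) hcu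
  let α : Equiv.Perm (ZMod p) := Equiv.addRight b * (Units.mulLeft u * Units.mulLeft u)
  have hα : ∀ a, α a = c * (c * a) + b := fun a => rfl
  have hsα : sign α = 1 := by
    show sign (Equiv.addRight b * (Units.mulLeft u * Units.mulLeft u)) = 1
    rw [Equiv.Perm.sign_mul, Equiv.Perm.sign_mul, sign_addRight p hodd b, one_mul]
    exact Int.units_mul_self _
  let A : Equiv.Perm (ZMod p × Bool) :=
    Equiv.prodCongrLeft (fun t : Bool => if t then (1 : Equiv.Perm (ZMod p)) else α)
  let B : Equiv.Perm (ZMod p × Bool) := Equiv.prodCongrRight (fun _ : ZMod p => Equiv.boolNot)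
  have hsA : sign A = 1 := by
    show sign (Equiv.prodCongrLeft (fun t : Bool => if t then (1 : Equiv.Perm (ZMod p)) else α)) = 1
    rw [sign_prodCongrLeft, Fintype.prod_bool]
    simp [hsα]
  have hsB : sign B = -1 := by
    show sign (Equiv.prodCongrRight (fun _ : ZMod p => Equiv.boolNot)) = -1
    rw [sign_prodCongrRight]
    have h1 : sign Equiv.boolNot = -1 := by decide
    rw [Finset.prod_const, h1, Finset.card_univ, ZMod.card, hodd.neg_one_pow]
  have hσ : (e.trans g).trans e.symm = A * B := by
    ext1 q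
    rw [Equiv.trans_apply, Equiv.trans_apply, Equiv.symm_apply_eq]
    rcases q with ⟨a, t⟩
    cases t
    · exact hg1 a
    · exact hg2 a
  have h := sign_trans_trans_symm g e
  rw [hσ, Equiv.Perm.sign_mul, hsA, hsB, one_mul] at h
  exact h.symm

end Pool.Agent.H26.LA
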